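import Pool.Agent.H24.UG.T7
import Pool.Agent.H33.AG.CHW

/-!
# UCW: choice of the modulus
-/

set_option autoImplicit false

open MeasureTheory ProbabilityTheory Filter Topology Finset
open scoped Nat ENNReal
open Pool.Agent.H24.UG
open Pool.Agent.H67.AG (avgP ul Inv Rt Av SA kap JJ TT InvZ nxt triv tow XN PN TN XX PX TX prX Fac
  Tup dl Dlt Mis bd κ₀)
open Pool.Agent.H24.T2 (Pset)
open Pool.Agent.H33.AG (avgP_le avgP_abs Dlt_pos meas_Inv Inv_mono Rt_le)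

namespace Pool.Agent.H94.UG

theorem Lm_le {Ω : Type} [MeasurableSpace Ω] (hul : Pool.Agent.H67.AG.T_UL) (U : Ultrafilter ℕ)
    (W : ℕ) (P : Measure Ω) [IsProbabilityMeasure P] (T : Ω ≃ᵐ Ω) {k : ℕ} (β : Fin k → ℕ)
    (σ : ℕ → ℝ) (hσ : Sgn σ) (y : Fin k → Ω → ℝ) (A A' : Set Ω) :
    Lm U W P T β σ y A' ≤ Lm U W P T β σ y A + P.real (symmDiff A A') := by
  obtain ⟨-, h2, h3, -, h5⟩ := hul U
  unfold Lm
  have hσ1 : ∀ p, |σ p| ≤ 1 := fun p => by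
    rcases hσ p with h | h | h <;> rw [h] <;> norm_num
  have hb : ∀ B : Set Ω, ∀ m : ℕ, |avgP W m fun p => |σ p| * P.real (B ∩ bd T β (σ p) y p)| ≤ 1 :=
    fun B m => avgP_abs W m _ (fun p => mul_nonneg (abs_nonneg _) measureReal_nonneg)
      (fun p => mul_le_one₀ (hσ1 p) measureReal_nonneg measureReal_le_one)
  have hs : P.real (symmDiff A A') = ul U (fun _ => P.real (symmDiff A A')) := (h5 _).symm
  rw [hs, ← h3 _ _ ⟨1, hb A⟩ ⟨|P.real (symmDiff A A')|, fun _ => le_rfl⟩]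
  refine h2 _ _ ⟨1, hb A'⟩ ⟨1 + |P.real (symmDiff A A')|, fun n => ?_⟩
    (Eventually.of_forall fun m => ?_)
  · exact (abs_add_le _ _).trans (add_le_add_left (hb A n) _)
  · refine avgP_le W m _ _ _ measureReal_nonneg fun p => ?_
    have h6 : A' ∩ bd T β (σ p) y p ⊆ (A ∩ bd T β (σ p) y p) ∪ symmDiff A A' := by
      rintro x ⟨hx1, hx2⟩
      by_cases hxA : x ∈ A
      · exact Or.inl ⟨hxA, hx2⟩
      · exact Or.inr (Or.inr ⟨hx1, hxA⟩)
    have h7 : P.real (A' ∩ bd T β (σ p) y p) ≤ P.real (A ∩ bd T β (σ p) y p) +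
        P.real (symmDiff A A') := (measureReal_mono h6).trans (measureReal_union_le _ _)
    have h8 : 0 ≤ P.real (symmDiff A A') := measureReal_nonneg
    calc |σ p| * P.real (A' ∩ bd T β (σ p) y p)
        ≤ |σ p| * (P.real (A ∩ bd T β (σ p) y p) + P.real (symmDiff A A')) :=
          mul_le_mul_of_nonneg_left h7 (abs_nonneg _)
      _ ≤ |σ p| * P.real (A ∩ bd T β (σ p) y p) + P.real (symmDiff A A') := by
          rw [mul_add]
          have := mul_le_mul_of_nonneg_right (hσ1 p) h8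
          linarith

theorem Dt_meas (c : CxE) (i : Fin c.k) : Measurable (c.Dt i) :=
  c.Dm.comp (c.T.measurable.iterate _)

theorem D1_meas (c : CxE) (i : Fin c.k) : Measurable (c.D1 i) := (Dt_meas c i).comp measurable_fst

theorem D2_meas (c : CxE) (i : Fin c.k) : Measurable (c.D2 i) := (Dt_meas c i).comp measurable_snd

theorem dl_meas (c : CxE) (i : Fin c.k) : Measurable (dl c.D1 c.D2 i) := by
  classical
  unfold dl
  exact Measurable.ite (measurableSet_eq_fun (D1_meas c i) (D2_meas c i)) measurable_const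
    measurable_const

theorem dl_abs (c : CxE) (i : Fin c.k) (q : c.X × c.X) : |dl c.D1 c.D2 i q| ≤ 1 := by
  unfold dl
  split_ifs <;> norm_num

theorem DD_abs (c : CxE) (i : Fin c.k) (q : c.X × c.X) : |c.D1 i q * c.D2 i q| ≤ 1 := by
  have h1 : ∀ x, |c.Dt i x| = 1 := by
    intro x
    unfold Cx.Dt
    rcases c.Dv (c.T^[c.β i] x) with h | h <;> rw [h] <;> norm_num
  unfold Cx.D1 Cx.D2
  rw [abs_mul, h1, h1]
  norm_num

theorem pf_UCW (hul : Pool.Agent.H67.AG.T_UL) (hlv : Pool.Agent.H67.AG.T_LV)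
    (hrs : Pool.Agent.H67.AG.T_RS) (hle : T_ULE) (hj2 : Pool.Agent.H67.AG.T_J2)
    (_hj3 : Pool.Agent.H67.AG.T_J3) : T_UCW := by
  intro c Z X1 θ hZ hX1 hX1g hθ
  have hT : MeasurePreserving c.T c.μ c.μ := c.erg.toMeasurePreserving
  have hP : IsProbabilityMeasure (JJ c.μ Z) := (hj2 c.X c.μ Z).1
  have hk0 : (0 : ℝ) < (c.k : ℝ) + 1 := by positivity
  -- the error on X1
  have hX1Y : X1 ⊆ c.Y := fun x hx => (hX1g hx).1
  have hX1m : MeasurableSet X1 := Rt_le _ _ hX1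
  have hlim := hle c c.X c.μ c.T id X1 hT ⟨MeasurePreserving.id _, fun ω => rfl⟩ hX1 hX1Y
  have hem : Measurable c.e := c.em.mono (Rt_le _) le_rfl
  have hei : Integrable c.e c.μ :=
    Integrable.of_bound hem.aestronglyMeasurable 1 (Eventually.of_forall fun x => by
      rw [Real.norm_eq_abs, abs_le]
      exact ⟨by linarith [(c.e0 x).1], (c.e0 x).2⟩)
  have hint : ∫ ω in X1, c.e (id ω) ∂c.μ ≤ 4 * κ₀ * c.γ ^ 3 * c.μ.real X1 := by
    have h1 : ∫ ω in X1, c.e (id ω) ∂c.μ ≤ ∫ _ω in X1, (4 * κ₀ * c.γ ^ 3) ∂c.μ := by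
      refine setIntegral_mono_on hei.integrableOn (integrableOn_const (measure_ne_top _ _)) hX1m
        fun x hx => ?_
      exact (hX1g hx).2
    rw [setIntegral_const, smul_eq_mul] at h1
    linarith
  have e1 : ∀ᶠ w in (c.V : Filter ℕ), Lm (c.U w) (c.W w) c.μ c.T c.β c.σ c.Dt X1 ≤
      4 * κ₀ * c.γ ^ 3 * c.μ.real X1 + θ / 2 := by
    have h1 : ∫ ω in X1, c.e (id ω) ∂c.μ < 4 * κ₀ * c.γ ^ 3 * c.μ.real X1 + θ / 2 := by linarith
    filter_upwards [hlim.eventually (gt_mem_nhds h1)] with w hw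
    exact hw.le
  -- the sets
  obtain ⟨w1, hw1⟩ := hrs c.X c.μ c.T X1 (θ / 2) hX1 (by positivity)
  -- the conditional expectations
  have h2 : ∀ i, ∃ w₀ : ℕ, ∀ W : ℕ, 0 < W → w₀ ! ∣ W →
      ∫ ω, |((JJ c.μ Z)[dl c.D1 c.D2 i | Rt (TT c.T)]) ω -
        ((JJ c.μ Z)[dl c.D1 c.D2 i | Inv (TT c.T) W]) ω| ∂(JJ c.μ Z) ≤ θ / ((c.k : ℝ) + 1) :=
    fun i => hlv (c.X × c.X) (JJ c.μ Z) (TT c.T) _ _ (dl_meas c i) ⟨1, dl_abs c i⟩ (by positivity)
  have h3 : ∀ i, ∃ w₀ : ℕ, ∀ W : ℕ, 0 < W → w₀ ! ∣ W →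
      ∫ ω, |((JJ c.μ Z)[fun q => c.D1 i q * c.D2 i q | Rt (TT c.T)]) ω -
        ((JJ c.μ Z)[fun q => c.D1 i q * c.D2 i q | Inv (TT c.T) W]) ω| ∂(JJ c.μ Z) ≤ θ / 2 :=
    fun i => hlv (c.X × c.X) (JJ c.μ Z) (TT c.T) _ _ ((D1_meas c i).mul (D2_meas c i))
      ⟨1, DD_abs c i⟩ (by positivity)
  choose w2 hw2 using h2
  choose w3 hw3 using h3
  have ev : ∀ n : ℕ, ∀ᶠ w in (c.V : Filter ℕ), n ≤ w := fun n => c.hV (eventually_ge_atTop n)
  have e2 : ∀ᶠ w in (c.V : Filter ℕ), ∀ i, w2 i ≤ w := eventually_all.2 fun i => ev _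
  have e3 : ∀ᶠ w in (c.V : Filter ℕ), ∀ i, w3 i ≤ w := eventually_all.2 fun i => ev _
  obtain ⟨w, f1, f2, f3, f4, f5, f6, f7⟩ := (e1.and (e2.and (e3.and ((ev w1).and ((ev 1).and
    ((ev (⌈(c.k : ℝ) ^ 2 / θ⌉₊)).and c.gam)))))).exists
  have hWpos : 0 < c.W w := Nat.mul_pos c.Qpos (Nat.factorial_pos w)
  have hdvd : ∀ n, n ≤ w → n ! ∣ c.W w := fun n hn =>
    (Nat.factorial_dvd_factorial hn).trans (dvd_mul_left _ _)
  obtain ⟨A', hA', hA'e⟩ := hw1 (c.W w) hWpos (hdvd w1 f4)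
  have hYW : MeasurableSet[Inv c.T (c.W w)] c.Y :=
    Inv_mono c.T (dvd_mul_right c.Q _) _ (meas_Inv.2 ⟨c.Ym, c.Yinv⟩)
  have hsub : symmDiff X1 (A' ∩ c.Y) ⊆ symmDiff X1 A' := by
    rintro x (⟨h1, h2⟩ | ⟨h1, h2⟩)
    · refine Or.inl ⟨h1, fun h3 => h2 ⟨h3, hX1Y h1⟩⟩
    · exact Or.inr ⟨h1.1, h2⟩
  have hsd : c.μ.real (symmDiff X1 (A' ∩ c.Y)) ≤ θ / 2 := (measureReal_mono hsub).trans hA'e
  refine ⟨w, A' ∩ c.Y, f5, f7, hA'.inter hYW, Set.inter_subset_right, by linarith, ?_, ?_, ?_, ?_⟩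
  · have h4 := Lm_le hul (c.U w) (c.W w) c.μ c.T c.β c.σ c.σv c.Dt X1 (A' ∩ c.Y)
    linarith
  · -- the mismatch
    have hI : ∀ i, Integrable (fun q => ((JJ c.μ Z)[dl c.D1 c.D2 i | Inv (TT c.T) (c.W w)]) q -
        ((JJ c.μ Z)[dl c.D1 c.D2 i | Rt (TT c.T)]) q) (JJ c.μ Z) := fun i =>
      integrable_condExp.sub integrable_condExp
    have h4 : ∀ q, |Mis (JJ c.μ Z) (Inv (TT c.T) (c.W w)) c.D1 c.D2 q - c.MR Z q| ≤
        ∑ i, |((JJ c.μ Z)[dl c.D1 c.D2 i | Inv (TT c.T) (c.W w)]) q -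
          ((JJ c.μ Z)[dl c.D1 c.D2 i | Rt (TT c.T)]) q| := by
      intro q
      unfold CxE.MR Mis
      rw [← Finset.sum_sub_distrib]
      exact Finset.abs_sum_le_sum_abs _ _
    calc ∫ q, |Mis (JJ c.μ Z) (Inv (TT c.T) (c.W w)) c.D1 c.D2 q - c.MR Z q| ∂(JJ c.μ Z)
        ≤ ∫ q, ∑ i, |((JJ c.μ Z)[dl c.D1 c.D2 i | Inv (TT c.T) (c.W w)]) q -
          ((JJ c.μ Z)[dl c.D1 c.D2 i | Rt (TT c.T)]) q| ∂(JJ c.μ Z) :=
          integral_mono_of_nonneg (Eventually.of_forall fun q => abs_nonneg _)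
            (integrable_finsetSum _ fun i _ => (hI i).abs) (Eventually.of_forall h4)
      _ = ∑ i, ∫ q, |((JJ c.μ Z)[dl c.D1 c.D2 i | Inv (TT c.T) (c.W w)]) q -
          ((JJ c.μ Z)[dl c.D1 c.D2 i | Rt (TT c.T)]) q| ∂(JJ c.μ Z) :=
          integral_finsetSum _ fun i _ => (hI i).abs
      _ ≤ ∑ _i : Fin c.k, θ / ((c.k : ℝ) + 1) := by
          refine Finset.sum_le_sum fun i _ => ?_
          have h5 := hw2 i (c.W w) hWpos (hdvd _ (f2 i))
          refine le_trans (le_of_eq ?_) h5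
          refine integral_congr_ae (Eventually.of_forall fun q => ?_)
          exact abs_sub_comm _ _
      _ ≤ θ := by
          rw [Finset.sum_const, Finset.card_univ, Fintype.card_fin, nsmul_eq_mul,
            ← mul_div_assoc, div_le_iff₀ hk0]
          nlinarith
  · intro i
    have hW2 : 0 < c.W w * Dlt c.β := Nat.mul_pos hWpos (Dlt_pos _)
    have h5 := hw3 i (c.W w) hWpos (hdvd _ (f3 i))
    have h6 := hw3 i (c.W w * Dlt c.β) hW2 ((hdvd _ (f3 i)).trans (dvd_mul_right _ _))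
    have i1 : Integrable (fun q => |((JJ c.μ Z)[fun q => c.D1 i q * c.D2 i q | Rt (TT c.T)]) q -
        ((JJ c.μ Z)[fun q => c.D1 i q * c.D2 i q | Inv (TT c.T) (c.W w)]) q|) (JJ c.μ Z) :=
      (integrable_condExp.sub integrable_condExp).abs
    have i2 : Integrable (fun q => |((JJ c.μ Z)[fun q => c.D1 i q * c.D2 i q | Rt (TT c.T)]) q -
        ((JJ c.μ Z)[fun q => c.D1 i q * c.D2 i q | Inv (TT c.T) (c.W w * Dlt c.β)]) q|)
        (JJ c.μ Z) := (integrable_condExp.sub integrable_condExp).abs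
    calc ∫ q, |((JJ c.μ Z)[fun q => c.D1 i q * c.D2 i q | Inv (TT c.T) (c.W w * Dlt c.β)]) q -
        ((JJ c.μ Z)[fun q => c.D1 i q * c.D2 i q | Inv (TT c.T) (c.W w)]) q| ∂(JJ c.μ Z)
        ≤ ∫ q, (|((JJ c.μ Z)[fun q => c.D1 i q * c.D2 i q | Rt (TT c.T)]) q -
            ((JJ c.μ Z)[fun q => c.D1 i q * c.D2 i q | Inv (TT c.T) (c.W w)]) q| +
          |((JJ c.μ Z)[fun q => c.D1 i q * c.D2 i q | Rt (TT c.T)]) q -
            ((JJ c.μ Z)[fun q => c.D1 i q * c.D2 i q | Inv (TT c.T) (c.W w * Dlt c.β)]) q|)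
            ∂(JJ c.μ Z) := by
          refine integral_mono_of_nonneg (Eventually.of_forall fun q => abs_nonneg _) (i1.add i2)
            (Eventually.of_forall fun q => ?_)
          have h7 := abs_sub_le
            (((JJ c.μ Z)[fun q => c.D1 i q * c.D2 i q | Inv (TT c.T) (c.W w * Dlt c.β)]) q)
            (((JJ c.μ Z)[fun q => c.D1 i q * c.D2 i q | Rt (TT c.T)]) q)
            (((JJ c.μ Z)[fun q => c.D1 i q * c.D2 i q | Inv (TT c.T) (c.W w)]) q)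
          rw [abs_sub_comm (((JJ c.μ Z)[fun q => c.D1 i q * c.D2 i q |
            Inv (TT c.T) (c.W w * Dlt c.β)]) q)
            (((JJ c.μ Z)[fun q => c.D1 i q * c.D2 i q | Rt (TT c.T)]) q)] at h7
          exact h7.trans (le_of_eq (add_comm _ _))
      _ ≤ θ := by
          rw [integral_add i1 i2]
          linarith
  · have h8 : (c.k : ℝ) ^ 2 / θ ≤ w := (Nat.le_ceil _).trans (by exact_mod_cast f6)
    have hw0 : (0 : ℝ) < w := by exact_mod_cast f5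
    rw [div_le_iff₀ hθ] at h8
    rw [div_le_iff₀ hw0]
    linarith

end Pool.Agent.H94.UG

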