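import Pool.Agent.H24.UG.T7
import Pool.Agent.H40.AG.Base

/-!
UNIFORM LOCAL GAP (`MP_c59857_nt`): row UGG, most configurations are good.
-/

set_option autoImplicit false
set_option linter.unusedSectionVars false

open MeasureTheory ProbabilityTheory Filter Topology Finset
open scoped Nat ENNReal

namespace Pool.Agent.H94.UGG

open Pool.Agent.H24.UG
open Pool.Agent.H67.AG (avgP ul Inv Rt Av SA kap JJ TT InvZ nxt triv tow XN PN TN XX PX TX prX Fac
  Tup dl Dlt Mis bd κ₀)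
open Pool.Agent.H40.AG

section basic

variable (c : CxE)

theorem dt_meas (i : Fin c.k) : Measurable (c.Dt i) :=
  c.Dm.comp (c.T.measurable.iterate _)

theorem dt_val (i : Fin c.k) (x : c.X) : c.Dt i x = 1 ∨ c.Dt i x = -1 := c.Dv _

theorem dl_meas (i : Fin c.k) : Measurable (dl c.D1 c.D2 i) := by
  classical
  have h1 : Measurable (c.D1 i) := (dt_meas c i).comp measurable_fst
  have h2 : Measurable (c.D2 i) := (dt_meas c i).comp measurable_snd
  have hs : MeasurableSet {q | c.D1 i q = c.D2 i q} := measurableSet_eq_fun h1 h2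
  unfold dl
  exact Measurable.ite hs measurable_const measurable_const

theorem dl_bd (i : Fin c.k) (q : c.X × c.X) : |dl c.D1 c.D2 i q| ≤ 1 := by
  unfold dl
  split_ifs <;> simp

theorem dL_meas (W L : ℕ) : Measurable (c.dL W L) := by
  unfold CxE.dL
  exact Finset.measurable_sum _ fun i _ => av_meas _ W L (dl_meas c i)

theorem dL_bd (W L : ℕ) (q : c.X × c.X) : |c.dL W L q| ≤ c.k := by
  unfold CxE.dL
  refine (Finset.abs_sum_le_sum_abs _ _).trans ?_
  refine (Finset.sum_le_sum fun i _ => av_bdd _ W L zero_le_one (dl_bd c i) q).trans ?_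
  simp

theorem MR_meas (Z : SA c.X) : Measurable (c.MR Z) := by
  unfold CxE.MR Mis
  exact Finset.measurable_sum _ fun i _ =>
    (stronglyMeasurable_condExp.mono (rt_le (TT c.T))).measurable

theorem MR_int (Z : SA c.X) : Integrable (c.MR Z) (JJ c.μ Z) := by
  unfold CxE.MR Mis
  exact integrable_finsetSum _ fun i _ => integrable_condExp

theorem dM_int (Z : SA c.X) (W L : ℕ) :
    Integrable (fun q => |c.dL W L q - c.MR Z q|) (JJ c.μ Z) :=
  ((bint (dL_meas c W L) ⟨c.k, dL_bd c W L⟩).sub (MR_int c Z)).abs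

theorem Xg_meas : MeasurableSet c.Xg := by
  have he : Measurable c.e := c.em.mono (rt_le c.T) le_rfl
  have : c.Xg = c.Y ∩ {x | c.e x ≤ 4 * κ₀ * c.γ ^ 3} := rfl
  rw [this]
  exact c.Ym.inter (measurableSet_le he measurable_const)

theorem Rel_meas (Z : SA c.X) : MeasurableSet (c.Rel Z) := by
  have : c.Rel Z = (Prod.fst ⁻¹' c.Xg) ∩ ((Prod.snd ⁻¹' c.Xg) ∩ {q | c.MR Z q ≤ c.γ / 2}) := rfl
  rw [this]
  exact (measurable_fst (Xg_meas c)).inter ((measurable_snd (Xg_meas c)).inter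
    (measurableSet_le (MR_meas c Z) measurable_const))

theorem mk_bd (Z : SA c.X) (W L : ℕ) {θ' ε : ℝ} (hε : 0 < ε)
    (h : ∫ q, |c.dL W L q - c.MR Z q| ∂(JJ c.μ Z) ≤ θ') :
    (JJ c.μ Z).real {q | ε < |c.dL W L q - c.MR Z q|} ≤ θ' / ε := by
  have h1 : (JJ c.μ Z).real {q | ε < |c.dL W L q - c.MR Z q|} ≤
      (JJ c.μ Z).real {q | ε ≤ |c.dL W L q - c.MR Z q|} :=
    measureReal_mono fun q hq => by
      simp only [Set.mem_ofPred_eq] at hq ⊢
      exact hq.le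
  have h2 := mul_meas_ge_le_integral_of_nonneg (μ := JJ c.μ Z)
    (f := fun q => |c.dL W L q - c.MR Z q|) (ae_of_all _ fun q => abs_nonneg _)
    (dM_int c Z W L) ε
  rw [le_div_iff₀ hε]
  calc _ ≤ (JJ c.μ Z).real {q | ε ≤ |c.dL W L q - c.MR Z q|} * ε :=
        mul_le_mul_of_nonneg_right h1 hε.le
    _ ≤ θ' := by rw [mul_comm]; exact h2.trans h

/-- the mismatch density in terms of the word -/
noncomputable def dw (W L : ℕ) (x : c.X) (v : Fin c.k → Fin L → Bool) : ℝ :=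
  ∑ i, (∑ l : Fin L, if c.wd W L x i l = v i l then (0 : ℝ) else 1) / L

theorem dL_eq_dw (W L : ℕ) (x x' : c.X) : c.dL W L (x, x') = dw c W L x (c.wd W L x') := by
  unfold CxE.dL dw Av
  refine Finset.sum_congr rfl fun i _ => ?_
  congr 1
  rw [← Fin.sum_univ_eq_sum_range]
  refine Finset.sum_congr rfl fun l _ => ?_
  rw [TT_it]
  unfold dl
  have e1 : c.D1 i (c.T^[W * (l : ℕ)] x, c.T^[W * (l : ℕ)] x') = c.Dt i (c.T^[W * (l : ℕ)] x) :=
    rfl
  have e2 : c.D2 i (c.T^[W * (l : ℕ)] x, c.T^[W * (l : ℕ)] x') = c.Dt i (c.T^[W * (l : ℕ)] x') :=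
    rfl
  simp only [e1, e2]
  have hiff : c.Dt i (c.T^[W * (l : ℕ)] x) = c.Dt i (c.T^[W * (l : ℕ)] x') ↔
      c.wd W L x i l = c.wd W L x' i l := by
    unfold CxE.wd
    rcases dt_val c i (c.T^[W * (l : ℕ)] x) with h1 | h1 <;>
      rcases dt_val c i (c.T^[W * (l : ℕ)] x') with h2 | h2 <;> rw [h1, h2] <;> norm_num
  by_cases h : c.Dt i (c.T^[W * (l : ℕ)] x) = c.Dt i (c.T^[W * (l : ℕ)] x')
  · rw [if_pos h, if_pos (hiff.1 h)]
  · rw [if_neg h, if_neg (fun h' => h (hiff.2 h'))]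

theorem wd_meas (W L : ℕ) : Measurable (c.wd W L) := by
  classical
  refine measurable_pi_iff.2 fun i => measurable_pi_iff.2 fun l => ?_
  have hs : MeasurableSet {x : c.X | c.Dt i (c.T^[W * (l : ℕ)] x) = 1} :=
    ((dt_meas c i).comp (c.T.measurable.iterate _)) (measurableSet_singleton 1)
  refine measurable_to_bool ?_
  have : (fun x => c.wd W L x i l) ⁻¹' {true} = {x : c.X | c.Dt i (c.T^[W * (l : ℕ)] x) = 1} := by
    ext x
    simp [CxE.wd]
  rw [this]
  exact hs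

theorem dw_meas (W L : ℕ) (v : Fin c.k → Fin L → Bool) : Measurable fun x => dw c W L x v := by
  unfold dw
  refine Finset.measurable_sum _ fun i _ => Measurable.div_const ?_ _
  refine Finset.measurable_sum _ fun l _ => ?_
  have h1 : Measurable fun x => c.wd W L x i l :=
    (measurable_pi_apply l).comp ((measurable_pi_apply i).comp (wd_meas c W L))
  exact Measurable.ite (h1 (measurableSet_singleton (v i l))) measurable_const measurable_const

end basic

theorem pf_UGG (hdrm : T_UDM) (hpnl : Pool.Agent.H40.AG.T_PNL) (hpxl : Pool.Agent.H40.AG.T_PXL)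
    (hmem : Pool.Agent.H40.AG.T_MEM) (hrpc : Pool.Agent.H40.AG.T_RPC)
    (hnco : Pool.Agent.H40.AG.T_NCO) (hdg : Pool.Agent.H40.AG.T_DGJ) : T_UGG := by
  intro c Z c₀ X1 B W L n R _ θ θ' θ'' hZ hRZ hc0 hc1 hX1 hX1g hmass hW hL hB hsym hdM hfst hsnd
    hrep
  classical
  have hB' : MeasurableSet B := (set_inv_iff c.T W B).1 hB |>.1
  have hX1' : MeasurableSet X1 := rt_le c.T X1 hX1
  have hX1Z : MeasurableSet[Z.1] X1 := hRZ X1 hX1
  have hγ0 : 0 < c.γ := c.γ0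
  have hγ1 : c.γ ≤ 1 := c.γ1
  have hm1 : (0 : ℝ) < c.m1 := by unfold Cx.m1; positivity
  have hm1' : c.m1 < c.γ / 2 := by unfold Cx.m1; nlinarith
  have hθ0 : 0 ≤ θ := measureReal_nonneg.trans hsym
  have hθ'0 : 0 ≤ θ' := (integral_nonneg fun q => abs_nonneg _).trans hdM
  -- the set `B` minus `X1`
  have hBX : c.μ.real (B \ X1) ≤ θ :=
    (measureReal_mono (fun x hx => Or.inr hx)).trans hsym
  have hstart : ∀ (R' : Measure (c.X × c.X)) [IsProbabilityMeasure R'],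
      MeasurePreserving Prod.fst R' c.μ → MeasurePreserving Prod.snd R' c.μ →
      (PX c.μ Z (n + 1) R').real {q | q.1.1 ∈ B \ X1} ≤ θ := by
    intro R' _ hf hs
    have hp := (hpxl c.X c.μ Z (n + 1) R' hf hs).2.1
    have h2 : MeasurePreserving (fun q : XX c.X (n + 1) => q.1.1) (PX c.μ Z (n + 1) R') c.μ :=
      hf.comp hp
    have h3 := h2.measureReal_preimage (hB'.diff hX1').nullMeasurableSet
    exact (le_of_eq h3).trans hBX
  -- the dichotomy for pairs of references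
  have hS2 : (PX c.μ Z (n + 1) R).real {q | q.1.1 ∈ B ∧ ∃ a b, a ≠ b ∧
      ¬ (|c.dL W L (q.2.1 a, q.2.1 b) - c.MR Z (q.2.1 a, q.2.1 b)| ≤ c.γ / 100 ∧
      (c.MR Z (q.2.1 a, q.2.1 b) ≤ c.m1 ∨ c.γ - c.m1 ≤ c.MR Z (q.2.1 a, q.2.1 b)))} ≤
      θ + 100 * ((n : ℝ) + 1) ^ 2 / c.γ * θ' := by
    have hpair : ∀ a b : Fin (n + 1), a ≠ b →
        (PX c.μ Z (n + 1) R).real {q | c.γ / 100 <
          |c.dL W L (q.2.1 a, q.2.1 b) - c.MR Z (q.2.1 a, q.2.1 b)|} ≤ 100 / c.γ * θ' := by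
      intro a b hab
      have h1 := (hpxl c.X c.μ Z (n + 1) R hfst hsnd).2.2.1
      have h2 := (hpnl c.X c.μ Z (n + 1)).2.2.2.2 a b hab
      have h3 : MeasurePreserving (fun q : XX c.X (n + 1) => (q.2.1 a, q.2.1 b))
        (PX c.μ Z (n + 1) R) (JJ c.μ Z) := h2.comp h1
      have hms : MeasurableSet {q : c.X × c.X | c.γ / 100 < |c.dL W L q - c.MR Z q|} :=
        measurableSet_lt measurable_const (((dL_meas c W L).sub (MR_meas c Z)).abs)
      have h4 := h3.measureReal_preimage hms.nullMeasurableSet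
      have h5 := mk_bd c Z W L (ε := c.γ / 100) (by positivity) hdM
      have h6 : θ' / (c.γ / 100) = 100 / c.γ * θ' := by field_simp
      rw [h6] at h5
      exact (le_of_eq h4).trans h5
    have hae : ∀ᵐ q ∂(PX c.μ Z (n + 1) R), ∀ a b : Fin (n + 1), a ≠ b → q.1.1 ∈ X1 →
        (c.MR Z (q.2.1 a, q.2.1 b) ≤ c.m1 ∨ c.γ - c.m1 ≤ c.MR Z (q.2.1 a, q.2.1 b)) := by
      rw [ae_all_iff]
      intro a
      rw [ae_all_iff]
      intro b
      by_cases hab : a = b
      · exact ae_of_all _ fun q h => absurd hab h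
      have h1 := (hpxl c.X c.μ Z (n + 1) R hfst hsnd).2.2.1
      have h2 := (hpnl c.X c.μ Z (n + 1)).2.2.2.2 a b hab
      have h3 : MeasurePreserving (fun q : XX c.X (n + 1) => (q.2.1 a, q.2.1 b))
        (PX c.μ Z (n + 1) R) (JJ c.μ Z) := h2.comp h1
      have h4 := h3.quasiMeasurePreserving.ae (hdrm c Z hZ)
      have h5 := ((hmem c.X c.μ Z (n + 1) X1 hX1Z).2 R hfst hsnd).1
      filter_upwards [h4, h5 a, h5 b] with q h4 h5 h6 _ hq
      exact (h4 (hX1g (h5.1 hq)) (hX1g (h6.1 hq))).2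
    set N : Set (XX c.X (n + 1)) := {q | ¬ ∀ a b : Fin (n + 1), a ≠ b → q.1.1 ∈ X1 →
        (c.MR Z (q.2.1 a, q.2.1 b) ≤ c.m1 ∨ c.γ - c.m1 ≤ c.MR Z (q.2.1 a, q.2.1 b))} with hN
    have hN0 : (PX c.μ Z (n + 1) R).real N = 0 := by
      have : (PX c.μ Z (n + 1) R) N = 0 := ae_iff.1 hae
      rw [Measure.real, this]
      rfl
    have hsub : {q : XX c.X (n + 1) | q.1.1 ∈ B ∧ ∃ a b, a ≠ b ∧
      ¬ (|c.dL W L (q.2.1 a, q.2.1 b) - c.MR Z (q.2.1 a, q.2.1 b)| ≤ c.γ / 100 ∧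
      (c.MR Z (q.2.1 a, q.2.1 b) ≤ c.m1 ∨ c.γ - c.m1 ≤ c.MR Z (q.2.1 a, q.2.1 b)))} ⊆
      ({q | q.1.1 ∈ B \ X1} ∪ N) ∪ ⋃ ab ∈ (univ : Finset (Fin (n + 1) × Fin (n + 1))).filter
        (fun ab => ab.1 ≠ ab.2),
        {q : XX c.X (n + 1) | c.γ / 100 <
          |c.dL W L (q.2.1 ab.1, q.2.1 ab.2) - c.MR Z (q.2.1 ab.1, q.2.1 ab.2)|} := by
      rintro q ⟨hqB, a, b, hab, hq⟩
      by_cases hqX : q.1.1 ∈ X1
      · by_cases hqN : q ∈ N
        · exact Or.inl (Or.inr hqN)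
        · right
          have h1 : (c.MR Z (q.2.1 a, q.2.1 b) ≤ c.m1 ∨ c.γ - c.m1 ≤ c.MR Z (q.2.1 a, q.2.1 b)) := by
            have := not_not.1 hqN
            exact this a b hab hqX
          have h2 : ¬ |c.dL W L (q.2.1 a, q.2.1 b) - c.MR Z (q.2.1 a, q.2.1 b)| ≤ c.γ / 100 :=
            fun h => hq ⟨h, h1⟩
          simp only [Set.mem_iUnion]
          exact ⟨(a, b), Finset.mem_filter.2 ⟨Finset.mem_univ _, hab⟩, not_le.1 h2⟩
      · exact Or.inl (Or.inl ⟨hqB, hqX⟩)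
    refine (measureReal_mono hsub).trans ?_
    refine (measureReal_union_le _ _).trans ?_
    refine add_le_add ?_ ?_
    · refine (measureReal_union_le _ _).trans ?_
      rw [hN0, add_zero]
      exact hstart R hfst hsnd
    · refine (measureReal_biUnion_finset_le _ _).trans ?_
      refine (Finset.sum_le_sum (g := fun _ => 100 / c.γ * θ') fun ab hab => ?_).trans ?_
      · exact hpair ab.1 ab.2 (Finset.mem_filter.1 hab).2
      · rw [Finset.sum_const, nsmul_eq_mul]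
        have hcard : (((univ : Finset (Fin (n + 1) × Fin (n + 1))).filter
            (fun ab => ab.1 ≠ ab.2)).card : ℝ) ≤ ((n : ℝ) + 1) ^ 2 := by
          have h1 := Finset.card_filter_le (univ : Finset (Fin (n + 1) × Fin (n + 1)))
            (fun ab => ab.1 ≠ ab.2)
          have h2 : (univ : Finset (Fin (n + 1) × Fin (n + 1))).card = (n + 1) ^ 2 := by
            rw [Finset.card_univ, Fintype.card_prod, Fintype.card_fin]
            ring
          rw [h2] at h1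
          exact_mod_cast h1
        have h9 : 0 ≤ 100 / c.γ * θ' := by positivity
        refine (mul_le_mul_of_nonneg_right hcard h9).trans (le_of_eq ?_)
        ring
  -- the event of the last point, replaced
  have hdgp := hdg c.X c.μ Z
  have : IsProbabilityMeasure (dg c.μ) := hdgp.1
  have hS1dg : (PX c.μ Z (n + 1) (dg c.μ)).real {q | q.1.1 ∈ B ∧
      ∀ b, 2 * c.m1 < c.dL W L (q.2.1 b, q.2.2)} ≤
      θ + (1 - c₀) ^ (n + 1) + ((n : ℝ) + 1) * (θ' / c.m1) := by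
    have hdd : ∀ᵐ q ∂(dg c.μ), q.1 = q.2 := by
      unfold dg
      have hd : Measurable fun z : c.X => (z, z) := by fun_prop
      have hms : MeasurableSet {q : c.X × c.X | q.1 = q.2} := measurableSet_eq_fun
        measurable_fst measurable_snd
      rw [ae_map_iff hd.aemeasurable hms]
      exact ae_of_all _ fun z => rfl
    have hx := hpxl c.X c.μ Z (n + 1) (dg c.μ) hdgp.2.1 hdgp.2.2.1
    have hae1 : ∀ᵐ q ∂(PX c.μ Z (n + 1) (dg c.μ)), q.1.1 = q.1.2 :=
      hx.2.1.quasiMeasurePreserving.ae hdd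
    have hae2 := ((hmem c.X c.μ Z (n + 1) X1 hX1Z).2 (dg c.μ) hdgp.2.1 hdgp.2.2.1).2
    have hlaw : ∀ b, MeasurePreserving (fun q : XX c.X (n + 1) => (q.2.1 b, q.2.2))
        (PX c.μ Z (n + 1) (dg c.μ)) (JJ c.μ Z) := by
      intro b
      have := hx.2.2.2.1 b
      rwa [hdgp.2.2.2] at this
    have hae3 : ∀ᵐ q ∂(PX c.μ Z (n + 1) (dg c.μ)), ∀ b : Fin (n + 1),
        (q.2.1 b, q.2.2) ∈ c.Rel Z → c.MR Z (q.2.1 b, q.2.2) ≤ c.m1 := by
      rw [ae_all_iff]
      intro b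
      have h4 := (hlaw b).quasiMeasurePreserving.ae (hdrm c Z hZ)
      filter_upwards [h4] with q h4 hq
      rcases (h4 hq.1 hq.2.1).2 with h | h
      · exact h
      · exfalso
        have h5 : c.MR Z (q.2.1 b, q.2.2) ≤ c.γ / 2 := hq.2.2
        linarith
    set N : Set (XX c.X (n + 1)) := {q | ¬ (q.1.1 = q.1.2 ∧ (q.1.2 ∈ X1 ↔ q.2.2 ∈ X1) ∧
      ∀ b : Fin (n + 1), (q.2.1 b, q.2.2) ∈ c.Rel Z → c.MR Z (q.2.1 b, q.2.2) ≤ c.m1)} with hN
    have hN0 : (PX c.μ Z (n + 1) (dg c.μ)).real N = 0 := by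
      have : (PX c.μ Z (n + 1) (dg c.μ)) N = 0 := ae_iff.1 (hae1.and (hae2.and hae3))
      rw [Measure.real, this]
      rfl
    have hsub : {q : XX c.X (n + 1) | q.1.1 ∈ B ∧ ∀ b, 2 * c.m1 < c.dL W L (q.2.1 b, q.2.2)} ⊆
        (({q | q.1.1 ∈ B \ X1} ∪ N) ∪ {q | q.2.2 ∈ X1 ∧ ∀ b, (q.2.1 b, q.2.2) ∉ c.Rel Z}) ∪
        ⋃ b ∈ (univ : Finset (Fin (n + 1))), (fun q : XX c.X (n + 1) => (q.2.1 b, q.2.2)) ⁻¹'
          {q | c.m1 < |c.dL W L q - c.MR Z q|} := by
      rintro q ⟨hqB, hq⟩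
      by_cases hqX : q.1.1 ∈ X1
      · by_cases hqN : q ∈ N
        · exact Or.inl (Or.inl (Or.inr hqN))
        · obtain ⟨e1, e2, e3⟩ := not_not.1 hqN
          have hx2 : q.2.2 ∈ X1 := e2.1 (e1 ▸ hqX)
          by_cases hr : ∀ b, (q.2.1 b, q.2.2) ∉ c.Rel Z
          · exact Or.inl (Or.inr ⟨hx2, hr⟩)
          · right
            obtain ⟨b, hb⟩ := not_forall.1 hr
            have hb' := not_not.1 hb
            have h1 := e3 b hb'
            have h2 := hq b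
            simp only [Set.mem_iUnion]
            refine ⟨b, Finset.mem_univ _, ?_⟩
            change c.m1 < |c.dL W L (q.2.1 b, q.2.2) - c.MR Z (q.2.1 b, q.2.2)|
            refine lt_of_lt_of_le ?_ (le_abs_self _)
            linarith
      · exact Or.inl (Or.inl (Or.inl ⟨hqB, hqX⟩))
    refine (measureReal_mono hsub).trans ?_
    refine (measureReal_union_le _ _).trans ?_
    refine add_le_add ?_ ?_
    · refine (measureReal_union_le _ _).trans ?_
      refine add_le_add ?_ ?_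
      · refine (measureReal_union_le _ _).trans ?_
        rw [hN0, add_zero]
        exact hstart (dg c.μ) hdgp.2.1 hdgp.2.2.1
      · exact hnco c.X c.μ Z (n + 1) (c.Rel Z) X1 c₀ (Rel_meas c Z) hX1' hc0.le hc1 hmass
    · refine (measureReal_biUnion_finset_le _ _).trans ?_
      refine (Finset.sum_le_sum (g := fun _ => θ' / c.m1) fun b _ => ?_).trans ?_
      · have hms : MeasurableSet {q : c.X × c.X | c.m1 < |c.dL W L q - c.MR Z q|} :=
          measurableSet_lt measurable_const (((dL_meas c W L).sub (MR_meas c Z)).abs)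
        have h4 := (hlaw b).measureReal_preimage hms.nullMeasurableSet
        exact (le_of_eq h4).trans (mk_bd c Z W L hm1 hdM)
      · rw [Finset.sum_const, nsmul_eq_mul, Finset.card_univ, Fintype.card_fin]
        push_cast
        exact le_rfl
  have hS1 : (PX c.μ Z (n + 1) R).real {q | q.1.1 ∈ B ∧
      ∀ b, 2 * c.m1 < c.dL W L (q.2.1 b, q.2.2)} ≤
      θ + (1 - c₀) ^ (n + 1) + ((n : ℝ) + 1) * (θ' / c.m1) + θ'' := by
    have hBm : ∀ v : Fin c.k → Fin L → Bool, MeasurableSet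
        {p : XN c.X (n + 1) | p.1 ∈ B ∧ ∀ b, 2 * c.m1 < dw c W L (p.2 b) v} := by
      intro v
      have h1 : MeasurableSet {p : XN c.X (n + 1) | p.1 ∈ B} := measurable_fst hB'
      have h2 : ∀ b : Fin (n + 1), MeasurableSet
          {p : XN c.X (n + 1) | 2 * c.m1 < dw c W L (p.2 b) v} := by
        intro b
        have : Measurable fun p : XN c.X (n + 1) => dw c W L (p.2 b) v :=
          (dw_meas c W L v).comp ((measurable_pi_apply b).comp measurable_snd)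
        exact measurableSet_lt measurable_const this
      have h3 : {p : XN c.X (n + 1) | p.1 ∈ B ∧ ∀ b, 2 * c.m1 < dw c W L (p.2 b) v} =
          {p : XN c.X (n + 1) | p.1 ∈ B} ∩
            ⋂ b, {p : XN c.X (n + 1) | 2 * c.m1 < dw c W L (p.2 b) v} := by
        ext p
        simp
      rw [h3]
      exact h1.inter (MeasurableSet.iInter h2)
    have h := hrpc c.X c.μ Z (n + 1) R (Fin c.k → Fin L → Bool) (c.wd W L)
      (fun v => {p : XN c.X (n + 1) | p.1 ∈ B ∧ ∀ b, 2 * c.m1 < dw c W L (p.2 b) v}) hfst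
      (fun v => (wd_meas c W L) (measurableSet_singleton v)) hBm
    have hset : {q : XX c.X (n + 1) | (q.1.1, q.2.1) ∈
        {p : XN c.X (n + 1) | p.1 ∈ B ∧ ∀ b, 2 * c.m1 < dw c W L (p.2 b) (c.wd W L q.2.2)}} =
        {q | q.1.1 ∈ B ∧ ∀ b, 2 * c.m1 < c.dL W L (q.2.1 b, q.2.2)} := by
      ext q
      simp only [Set.mem_ofPred_eq, dL_eq_dw]
    rw [hset] at h
    exact h.trans (add_le_add hS1dg hrep)
  have hsub : c.BG Z W L n B ⊆ {q | q.1.1 ∈ B ∧ ∀ b, 2 * c.m1 < c.dL W L (q.2.1 b, q.2.2)} ∪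
      {q | q.1.1 ∈ B ∧ ∃ a b, a ≠ b ∧
      ¬ (|c.dL W L (q.2.1 a, q.2.1 b) - c.MR Z (q.2.1 a, q.2.1 b)| ≤ c.γ / 100 ∧
      (c.MR Z (q.2.1 a, q.2.1 b) ≤ c.m1 ∨ c.γ - c.m1 ≤ c.MR Z (q.2.1 a, q.2.1 b)))} := by
    rintro q ⟨hqB, hqG⟩
    by_contra hcon
    apply hqG
    have h1 : ¬ (q.1.1 ∈ B ∧ ∀ b, 2 * c.m1 < c.dL W L (q.2.1 b, q.2.2)) := fun h => hcon (Or.inl h)
    have h2 : ¬ (q.1.1 ∈ B ∧ ∃ a b, a ≠ b ∧
      ¬ (|c.dL W L (q.2.1 a, q.2.1 b) - c.MR Z (q.2.1 a, q.2.1 b)| ≤ c.γ / 100 ∧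
      (c.MR Z (q.2.1 a, q.2.1 b) ≤ c.m1 ∨ c.γ - c.m1 ≤ c.MR Z (q.2.1 a, q.2.1 b)))) :=
      fun h => hcon (Or.inr h)
    refine ⟨hqB, ?_, ?_⟩
    · by_contra h3
      apply h1
      refine ⟨hqB, fun b => ?_⟩
      by_contra h4
      exact h3 ⟨b, not_lt.1 h4⟩
    · intro a b hab
      by_contra h3
      exact h2 ⟨hqB, a, b, hab, h3⟩
  refine (measureReal_mono hsub).trans ((measureReal_union_le _ _).trans ?_)
  refine (add_le_add hS1 hS2).trans (le_of_eq ?_)
  ring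

end Pool.Agent.H94.UGG

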